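import Mathlib

set_option autoImplicit false
open Finset MeasureTheory

namespace Pool.Agent.H.MP_2cf295_an

lemma eq_zero_of_coeff (u : C(UnitAddCircle, ℂ)) (h : ∀ n, fourierCoeff (⇑u) n = 0) : u = 0 := by
  have h0 : fourierCoeff (⇑u) = fun _ => 0 := funext h
  have h3 := hasSum_fourier_series_of_summable (f := u) (by rw [h0]; exact summable_zero)
  have h5 : (fun i => fourierCoeff (⇑u) i • (fourier i : C(UnitAddCircle, ℂ))) = fun _ => 0 := by
    funext i
    ext x
    simp [h i]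
  rw [h5] at h3
  exact h3.unique hasSum_zero

lemma coeff_shift (f g : C(UnitAddCircle, ℂ)) (a : UnitAddCircle) (hg : ∀ t, g t = f (t + a))
    (n : ℤ) : fourierCoeff (⇑g) n = fourier n a * fourierCoeff (⇑f) n := by
  simp only [fourierCoeff]
  rw [← integral_const_mul, ← integral_add_right_eq_self
    (fun t => fourier n a * (fourier (-n) t • f t)) a]
  refine integral_congr_ae (Filter.Eventually.of_forall fun t => ?_)
  have e : fourier (-n) (t + a) = fourier (-n) t * fourier (-n) a := by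
    simp only [fourier_apply, smul_add, AddCircle.toCircle_add, Circle.coe_mul]
  have e2 : fourier n a * fourier (-n) a = (1 : ℂ) := by
    rw [← fourier_add, add_neg_cancel, fourier_zero]
  simp only [hg, smul_eq_mul, e]
  linear_combination (-(fourier (-n) t * f (t + a))) * e2

lemma half_odd (k : ℤ) : fourier (2 * k + 1) ((1 / 2 : ℝ) : UnitAddCircle) = (-1 : ℂ) := by
  rw [fourier_coe_apply]
  have e : (2 * Real.pi * Complex.I * ((2 * k + 1 : ℤ) : ℂ) * ((1 / 2 : ℝ) : ℂ) / ((1 : ℝ) : ℂ))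
      = k * (2 * Real.pi * Complex.I) + Real.pi * Complex.I := by
    push_cast; ring
  rw [e, Complex.exp_add, Complex.exp_int_mul_two_pi_mul_I, Complex.exp_pi_mul_I, one_mul]

lemma half_aux (f g : C(UnitAddCircle, ℂ)) (hf : ∀ n ∉ {n : ℤ | Odd n}, fourierCoeff (⇑f) n = 0)
    (hg : ∀ t, g t = f (t + ((1 / 2 : ℝ) : UnitAddCircle))) : g = (-1 : ℂ) • f := by
  have h2 : ∀ n, fourierCoeff (⇑(g + f)) n = 0 := by
    intro n
    have hi : ∀ u : C(UnitAddCircle, ℂ), Integrable (⇑u) AddCircle.haarAddCircle := fun u =>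
      u.continuous.integrable_of_hasCompactSupport (HasCompactSupport.of_compactSpace _)
    rw [ContinuousMap.coe_add, fourierCoeff.add (hi g) (hi f), Pi.add_apply, coeff_shift f g _ hg]
    by_cases hn : Odd n
    · obtain ⟨k, rfl⟩ := hn
      rw [half_odd]
      ring
    · rw [hf n hn]
      ring
  rw [eq_neg_of_add_eq_zero_left (eq_zero_of_coeff _ h2)]
  ext x
  simp

lemma half_shift (f : C(UnitAddCircle, ℂ)) (hf : ∀ n ∉ {n : ℤ | Odd n}, fourierCoeff (⇑f) n = 0) :
    f.comp (ContinuousMap.mk (fun x : UnitAddCircle => x + ((1 / 2 : ℝ) : UnitAddCircle))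
      (continuous_add_const _)) = (-1 : ℂ) • f := half_aux f _ hf fun _ => rfl

lemma rs (m : ℕ) : ∃ (s : Finset ℤ) (c d : ℤ → ℂ), (∀ k ∈ s, Odd k ∧ 0 ≤ k ∧ k < 2 ^ (m + 1)) ∧
    s.card = 2 ^ m ∧ (∀ k ∈ s, ‖c k‖ = 1 ∧ ‖d k‖ = 1) ∧ ∀ x : UnitAddCircle,
      ‖∑ k ∈ s, c k * fourier k x‖ ^ 2 + ‖∑ k ∈ s, d k * fourier k x‖ ^ 2 = 2 ^ (m + 1) := by
  induction m with
  | zero =>
    refine ⟨{1}, fun _ => 1, fun _ => 1, by simp, by simp, by simp, fun x => ?_⟩
    simp only [sum_singleton, one_mul, fourier_apply, Circle.norm_coe]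
    norm_num
  | succ m ih =>
    obtain ⟨s, c, d, h1, h2, h3, h4⟩ := ih
    set L : ℤ := 2 ^ (m + 1) with hL
    have hLe : Even L := by rw [hL, pow_succ]; exact even_two.mul_left _
    have hdis : Disjoint s (s.image (· + L)) := by
      rw [disjoint_left]
      intro k hk hk'
      obtain ⟨j, hj, rfl⟩ := mem_image.1 hk'
      have := (h1 _ hk).2.2
      have := (h1 _ hj).2.1
      omega
    have hinj : Set.InjOn (· + L) s := fun _ _ _ _ h => add_right_cancel h
    have hsum : ∀ (ε : ℂ) (x : UnitAddCircle), ∑ k ∈ s ∪ s.image (· + L),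
        (if k < L then c k else ε * d (k - L)) * fourier k x =
        ∑ k ∈ s, c k * fourier k x + ε * fourier L x * ∑ k ∈ s, d k * fourier k x := by
      intro ε x
      rw [sum_union hdis, sum_image hinj, mul_sum]
      congr 1
      · exact sum_congr rfl fun k hk => by rw [if_pos (h1 k hk).2.2]
      · refine sum_congr rfl fun k hk => ?_
        rw [if_neg (by have := (h1 k hk).2.1; omega), add_sub_cancel_right, fourier_add]
        ring
    have hn : ∀ ε : ℂ, ‖ε‖ = 1 → ∀ k ∈ s ∪ s.image (· + L),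
        ‖if k < L then c k else ε * d (k - L)‖ = 1 := by
      intro ε hε k hk
      rcases mem_union.1 hk with hk | hk
      · rw [if_pos (h1 k hk).2.2, (h3 k hk).1]
      · obtain ⟨j, hj, rfl⟩ := mem_image.1 hk
        rw [if_neg (by have := (h1 j hj).2.1; omega), add_sub_cancel_right, norm_mul, hε,
          (h3 j hj).2, one_mul]
    refine ⟨s ∪ s.image (· + L), fun k => if k < L then c k else 1 * d (k - L),
      fun k => if k < L then c k else -1 * d (k - L), fun k hk => ?_, ?_,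
      fun k hk => ⟨hn 1 (by simp) k hk, hn (-1) (by simp) k hk⟩, fun x => ?_⟩
    · have e : (2 : ℤ) ^ (m + 1 + 1) = L + L := by rw [hL]; ring
      rw [e]
      rcases mem_union.1 hk with hk | hk
      · obtain ⟨a1, a2, a3⟩ := h1 k hk
        exact ⟨a1, a2, by omega⟩
      · obtain ⟨j, hj, rfl⟩ := mem_image.1 hk
        obtain ⟨a1, a2, a3⟩ := h1 j hj
        exact ⟨a1.add_even hLe, by omega, by omega⟩
    · rw [card_union_of_disjoint hdis, card_image_of_injOn hinj, h2]
      ring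
    · rw [hsum, hsum]
      have h5 := parallelogram_law_with_norm ℂ (∑ k ∈ s, c k * fourier k x)
        (fourier L x * ∑ k ∈ s, d k * fourier k x)
      have h6 : ‖fourier L x * ∑ k ∈ s, d k * fourier k x‖ = ‖∑ k ∈ s, d k * fourier k x‖ := by
        rw [norm_mul, fourier_apply, Circle.norm_coe, one_mul]
      rw [h6] at h5
      rw [one_mul, neg_mul, neg_mul, one_mul, ← sub_eq_add_neg, pow_succ 2 (m + 1), ← h4 x]
      linarith

lemma not_sidon : ¬ ∃ C : ℝ, ∀ (s : Finset ℤ) (c : ℤ → ℂ), (↑s ⊆ {n : ℤ | Odd n}) →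
    ∑ n ∈ s, ‖c n‖ ≤ C * ‖∑ n ∈ s, c n • (fourier n : C(UnitAddCircle, ℂ))‖ := by
  rintro ⟨C, hC⟩
  obtain ⟨m, hm⟩ := pow_unbounded_of_one_lt (2 * |C|) (one_lt_two (α := ℝ))
  obtain ⟨s, c, d, h1, h2, h3, h4⟩ := rs (2 * m)
  have h5 := hC s c fun k hk => (h1 k hk).1
  have h6 : ∑ n ∈ s, ‖c n‖ = 2 ^ m * 2 ^ m := by
    rw [sum_congr rfl (g := fun _ => (1 : ℝ)) fun k hk => (h3 k hk).1]
    simp only [sum_const, h2, nsmul_eq_mul, mul_one]
    push_cast
    ring
  have h7 : ‖∑ n ∈ s, c n • (fourier n : C(UnitAddCircle, ℂ))‖ ≤ 2 * 2 ^ m := by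
    refine (ContinuousMap.norm_le _ (by positivity)).2 fun x => ?_
    have h8 := h4 x
    simp only [ContinuousMap.coe_sum, ContinuousMap.coe_smul, Finset.sum_apply, Pi.smul_apply,
      smul_eq_mul]
    refine (pow_le_pow_iff_left₀ (norm_nonneg _) (by positivity) two_ne_zero).1 ?_
    have e : (2 : ℝ) ^ (2 * m + 1) = 2 * (2 ^ m) ^ 2 := by ring
    nlinarith [sq_nonneg ‖∑ k ∈ s, d k * fourier k x‖, sq_nonneg ((2 : ℝ) ^ m)]
  have h9 : C * ‖∑ n ∈ s, c n • (fourier n : C(UnitAddCircle, ℂ))‖ ≤ |C| * (2 * 2 ^ m) :=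
    mul_le_mul (le_abs_self C) h7 (norm_nonneg _) (abs_nonneg C)
  have h10 : (0 : ℝ) < 2 ^ m := by positivity
  nlinarith

end Pool.Agent.H.MP_2cf295_an
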